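import Mathlib
import Pool.Agent.Lib.helper2.ChromRel

set_option autoImplicit false

namespace Pool.Agent.Results.MP_d44e62_co.Disproof

open Pool.Agent.Lib.helper2.ChromRel

/-- `H` has an `F`-free colouring with `k` colours: no colour class contains an induced copy
of `F`. -/
def FreeColorable {α β : Type} (F : SimpleGraph α) (H : SimpleGraph β) (k : ℕ) : Prop :=
  ∃ c : β → Fin k, ∀ i : Fin k, IsEmpty (F ↪g H.induce {v | c v = i})

/-- The `F`-free chromatic number `χ(H : -F)`. -/
noncomputable def freeChrom {α β : Type} (F : SimpleGraph α) (H : SimpleGraph β) : ℕ :=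
  sInf {k | FreeColorable F H k}

/-- `F ≍_n G`: some finite graph `H` has `χ(H : -F) = χ(H : -G) = n`. -/
def Related {α β : Type} (F : SimpleGraph α) (G : SimpleGraph β) (n : ℕ) : Prop :=
  ∃ (V : Type) (_ : Finite V) (H : SimpleGraph V), freeChrom F H = n ∧ freeChrom G H = n

lemma not3 : ¬ Related paw big 3 := by
  rintro ⟨V, _, H, h1, h2⟩
  have hne : {k | FreeColorable paw H k}.Nonempty := by
    by_contra h
    rw [Set.not_nonempty_iff_eq_empty] at h
    simp [freeChrom, h] at h1
  have hm := Nat.sInf_mem hne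
  unfold freeChrom at h1 h2
  rw [h1] at hm
  obtain ⟨φ, hφ⟩ := (free_iff paw H).1 hm
  have : sInf {k | FreeColorable big H k} ≤ 2 :=
    Nat.sInf_le ((free_iff big H).2 (three_two H φ hφ))
  omega

instance : Nontrivial (Fin 7 ⊕ PV) := ⟨⟨Sum.inl 0, Sum.inl 1, by simp⟩⟩

theorem result : ∃ (α β : Type) (_ : Finite α) (_ : Finite β) (_ : Nontrivial α) (_ : Nontrivial β)
    (F : SimpleGraph α) (G : SimpleGraph β),
    F.Connected ∧ G.Connected ∧ ∃ n m, 2 ≤ n ∧ 1 ≤ m ∧ Related F G n ∧ ¬ Related F G m := by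
  refine ⟨Fin 4, Fin 7 ⊕ PV, inferInstance, inferInstance, inferInstance, inferInstance, paw, big,
    paw_conn, big_conn, 2, 3, le_rfl, by norm_num, ⟨Fin 7 ⊕ PV, inferInstance, big, ?_, ?_⟩, not3⟩
  · exact two_eq _ (fun k φ => Mono paw big φ) (fun k => free_iff paw big) big_paw2
      (fun φ => big_paw1 φ)
  · exact two_eq _ (fun k φ => Mono big big φ) (fun k => free_iff big big) (self2 big)
      (fun φ => ⟨0, id, Function.injective_id, fun x => Subsingleton.elim _ _, fun x y => Iff.rfl⟩)

end Pool.Agent.Results.MP_d44e62_co.Disproof
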